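import Mathlib

/-!
# Queue layouts, stack layouts, and a triangulated three-dimensional grid
-/

set_option autoImplicit false

namespace Pool.Agent.Helper19.QS

/-- `G` has a `k`-queue layout: a linear order of the vertices (given by an injection `f` into `ℕ`) and a colouring of
the edges by `k` colours such that two nested edges (`a < x < y < b` for edges `ab`, `xy`) have different colours. -/
def HasQueueLayout {V : Type} (G : SimpleGraph V) (k : ℕ) : Prop :=
  ∃ (f : V → ℕ) (col : Sym2 V → Fin k), Function.Injective f ∧
    ∀ a b x y : V, G.Adj a b → G.Adj x y → f a < f x → f x < f y → f y < f b → col s(a, b) ≠ col s(x, y)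

/-- `G` has a `k`-stack layout: a linear order of the vertices (given by an injection `f` into `ℕ`) and a colouring of
the edges by `k` colours such that two crossing edges (`a < x < b < y` for edges `ab`, `xy`) have different colours. -/
def HasStackLayout {V : Type} (G : SimpleGraph V) (k : ℕ) : Prop :=
  ∃ (f : V → ℕ) (col : Sym2 V → Fin k), Function.Injective f ∧
    ∀ a b x y : V, G.Adj a b → G.Adj x y → f a < f x → f x < f b → f b < f y → col s(a, b) ≠ col s(x, y)

/-- the points of the grid `{0, …, m-1}³` -/
abbrev Box (m : ℕ) : Type := Fin m × Fin m × Fin m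

/-- `v - u` is a unit vector or the sum of two different unit vectors -/
def Up {m : ℕ} (u v : Box m) : Prop :=
  ∃ a b c : ℕ, a ≤ 1 ∧ b ≤ 1 ∧ c ≤ 1 ∧ 1 ≤ a + b + c ∧ a + b + c ≤ 2 ∧
    (v.1 : ℕ) = u.1 + a ∧ (v.2.1 : ℕ) = u.2.1 + b ∧ (v.2.2 : ℕ) = u.2.2 + c

/-- The three-dimensional grid `{0, …, m-1}³` with one diagonal in every unit square: two points are adjacent if
their difference is, up to sign, a unit vector or the sum of two different unit vectors. -/
def grid (m : ℕ) : SimpleGraph (Box m) where
  Adj u v := Up u v ∨ Up v u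
  symm := ⟨fun _ _ h => h.symm⟩
  loopless := ⟨fun u h => by
    rcases h with ⟨a, b, c, _, _, _, h1, _, h3, h4, h5⟩ | ⟨a, b, c, _, _, _, h1, _, h3, h4, h5⟩ <;> omega⟩

end Pool.Agent.Helper19.QS
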