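import Pool.Agent.Helper19.QS.Defs

/-!
# The degrees of the triangulated grid
-/

set_option autoImplicit false

namespace Pool.Agent.Helper19.QS

/-- the twelve directions of the edges -/
def dirs : Finset (ℤ × ℤ × ℤ) :=
  {(1, 0, 0), (0, 1, 0), (0, 0, 1), (1, 1, 0), (1, 0, 1), (0, 1, 1),
    (-1, 0, 0), (0, -1, 0), (0, 0, -1), (-1, -1, 0), (-1, 0, -1), (0, -1, -1)}

theorem degree_le (m : ℕ) (v : Box m) : ((grid m).neighborSet v).ncard ≤ 12 := by
  have hD : ((dirs : Finset (ℤ × ℤ × ℤ)) : Set (ℤ × ℤ × ℤ)).ncard = 12 := by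
    rw [Set.ncard_coe_finset]
    decide
  rw [← hD]
  refine Set.ncard_le_ncard_of_injOn
    (fun u : Box m => (((u.1 : ℕ) : ℤ) - (v.1 : ℕ), ((u.2.1 : ℕ) : ℤ) - (v.2.1 : ℕ),
      ((u.2.2 : ℕ) : ℤ) - (v.2.2 : ℕ))) ?_ ?_ (Finset.finite_toSet _)
  · intro u hu
    have hu' : Up v u ∨ Up u v := hu
    rcases hu' with ⟨a, b, c, ha, hb, hc, h1, h2, hx, hy, hz⟩ | ⟨a, b, c, ha, hb, hc, h1, h2, hx, hy, hz⟩
    · have e1 : ((u.1 : ℕ) : ℤ) - (v.1 : ℕ) = a := by omega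
      have e2 : ((u.2.1 : ℕ) : ℤ) - (v.2.1 : ℕ) = b := by omega
      have e3 : ((u.2.2 : ℕ) : ℤ) - (v.2.2 : ℕ) = c := by omega
      simp only [e1, e2, e3]
      interval_cases a <;> interval_cases b <;> interval_cases c <;> first | omega | simp [dirs]
    · have e1 : ((u.1 : ℕ) : ℤ) - (v.1 : ℕ) = -a := by omega
      have e2 : ((u.2.1 : ℕ) : ℤ) - (v.2.1 : ℕ) = -b := by omega
      have e3 : ((u.2.2 : ℕ) : ℤ) - (v.2.2 : ℕ) = -c := by omega
      simp only [e1, e2, e3]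
      interval_cases a <;> interval_cases b <;> interval_cases c <;> first | omega | simp [dirs]
  · intro u _ w _ h
    simp only [Prod.mk.injEq] at h
    obtain ⟨h1, h2, h3⟩ := h
    refine Prod.ext (Fin.ext (by omega)) (Prod.ext (Fin.ext (by omega)) (Fin.ext (by omega)))

end Pool.Agent.Helper19.QS
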