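import Pool.Agent.Helper19.QS.Defs

/-!
# A 3-queue layout of the triangulated grid
-/

set_option autoImplicit false

namespace Pool.Agent.Helper19.QS

/-- the linear functional `m x + m² y - (m² + m + 1) z`, shifted -/
def pos {m : ℕ} (v : Box m) : ℕ := m * v.1 + m ^ 2 * v.2.1 + (m ^ 2 + m + 1) * (m - v.2.2)

theorem pos_int {m : ℕ} (v : Box m) :
    (pos v : ℤ) = m * (v.1 : ℕ) + m ^ 2 * (v.2.1 : ℕ) + (m ^ 2 + m + 1) * (m - (v.2.2 : ℕ)) := by
  unfold pos
  push_cast [Nat.cast_sub v.2.2.2.le]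
  ring

theorem pos_injective (m : ℕ) : Function.Injective (pos : Box m → ℕ) := by
  intro u v h
  have h' : (pos u : ℤ) = pos v := by exact_mod_cast h
  rw [pos_int, pos_int] at h'
  obtain ⟨⟨x, hx⟩, ⟨y, hy⟩, ⟨z, hz⟩⟩ := u
  obtain ⟨⟨x', hx'⟩, ⟨y', hy'⟩, ⟨z', hz'⟩⟩ := v
  simp only at h'
  have hzz : (z : ℤ) - z' = 0 := by
    refine Int.eq_zero_of_abs_lt_dvd (m := m) ⟨((x : ℤ) - x') + m * (y - y') - (m + 1) * (z - z'), ?_⟩ ?_
    · linear_combination -h'
    · rw [abs_lt]; constructor <;> omega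
  have hm : (0 : ℤ) < m := by omega
  have h2 : ((x : ℤ) - x') + m * (y - y') = 0 := by
    have h3 : (m : ℤ) * (((x : ℤ) - x') + m * (y - y')) = 0 := by
      linear_combination h' + (m ^ 2 + m + 1) * hzz
    exact (mul_eq_zero.1 h3).resolve_left hm.ne'
  have hxx : (x : ℤ) - x' = 0 := by
    refine Int.eq_zero_of_abs_lt_dvd (m := m) ⟨-((y : ℤ) - y'), ?_⟩ ?_
    · linear_combination h2
    · rw [abs_lt]; constructor <;> omega
  have hyy : (y : ℤ) - y' = 0 := by
    rw [hxx, zero_add] at h2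
    exact (mul_eq_zero.1 h2).resolve_left hm.ne'
  have e1 : x = x' := by omega
  have e2 : y = y' := by omega
  have e3 : z = z' := by omega
  subst e1 e2 e3
  rfl

/-- the length of an edge -/
def len {m : ℕ} (u v : Box m) : ℕ := ((pos v : ℤ) - pos u).natAbs

theorem len_comm {m : ℕ} (u v : Box m) : len u v = len v u := by
  unfold len
  omega

theorem len_up {m : ℕ} {u v : Box m} (h : Up u v) :
    (len u v = m ∨ len u v = m + 1) ∨ (len u v = m ^ 2 ∨ len u v = m ^ 2 + 1) ∨
      (len u v = m ^ 2 + m ∨ len u v = m ^ 2 + m + 1) := by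
  obtain ⟨a, b, c, ha, hb, hc, h1, h2, hx, hy, hz⟩ := h
  have hd : (pos v : ℤ) - pos u = m * a + m ^ 2 * b - (m ^ 2 + m + 1) * c := by
    rw [pos_int, pos_int, hx, hy, hz]
    push_cast
    ring
  unfold len
  rw [hd]
  generalize hq : m ^ 2 = q
  have hq' : ((m : ℤ)) ^ 2 = q := by rw [← hq]; push_cast; ring
  rw [hq']
  interval_cases a <;> interval_cases b <;> interval_cases c <;> omega

theorem len_adj {m : ℕ} {u v : Box m} (h : (grid m).Adj u v) :
    (len u v = m ∨ len u v = m + 1) ∨ (len u v = m ^ 2 ∨ len u v = m ^ 2 + 1) ∨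
      (len u v = m ^ 2 + m ∨ len u v = m ^ 2 + m + 1) := by
  rcases h with h | h
  · exact len_up h
  · rw [len_comm]
    exact len_up h

/-- the class of an edge, in terms of its length -/
def cls (m d : ℕ) : Fin 3 := if d ≤ m + 1 then 0 else if d ≤ m ^ 2 + 1 then 1 else 2

theorem queue_grid (m : ℕ) (hm : 2 ≤ m) : HasQueueLayout (grid m) 3 := by
  refine ⟨pos, Sym2.lift ⟨fun u v => cls m (len u v), fun u v => by
    show cls m (len u v) = cls m (len v u)
    rw [len_comm]⟩, pos_injective m, ?_⟩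
  intro a b x y hab hxy h1 h2 h3 hcol
  simp only [Sym2.lift_mk] at hcol
  have l1 := len_adj hab
  have l2 := len_adj hxy
  have e1 : (len a b : ℤ) = pos b - pos a := by
    unfold len
    omega
  have e2 : (len x y : ℤ) = pos y - pos x := by
    unfold len
    omega
  have h4 : len x y + 2 ≤ len a b := by omega
  have hm2 : m + 2 ≤ m ^ 2 := by nlinarith
  unfold cls at hcol
  generalize m ^ 2 = q at *
  generalize len a b = s at *
  generalize len x y = t at *
  split_ifs at hcol <;> omega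

end Pool.Agent.Helper19.QS
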