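import Pool.Agent.Helper19.QS.Main
import Pool.Agent.Helper19.QS.Queue

/-!
# The triangulated grid has unbounded stack-number
-/

set_option autoImplicit false

open Finset

namespace Pool.Agent.Helper19.QS

theorem not_rainbow {m : ℕ} {f : Box m → ℕ} {x s : ℕ} {H : Finset (Box m)} (hxs : x ≤ s)
    (hH : ∀ t, Rain (grid m) f x s t → t.1 ∈ H ∨ t.2.1 ∈ H ∨ t.2.2 ∈ H) (p q r : Box m)
    (hpq : (grid m).Adj p q) (hpr : (grid m).Adj p r) (hqr : (grid m).Adj q r) (hp : p ∉ H) (hq : q ∉ H)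
    (hr : r ∉ H) (c : Box m → Fin 3) (hc : ∀ v, c v = if f v < x then 1 else if f v < s then 2 else 0) :
    c p = c q ∨ c q = c r ∨ c p = c r := by
  have key : ∀ p q r : Box m, (grid m).Adj p q → (grid m).Adj p r → (grid m).Adj q r → p ∉ H → q ∉ H → r ∉ H →
      ¬ (f p < x ∧ x ≤ f q ∧ f q < s ∧ s ≤ f r) := by
    intro p q r hpq hpr hqr hp hq hr hh
    rcases hH (p, q, r) ⟨hpq, hpr, hqr, hh.1, hh.2.1, hh.2.2.1, hh.2.2.2⟩ with h | h | h
    · exact hp h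
    · exact hq h
    · exact hr h
  have k1 := key p q r hpq hpr hqr hp hq hr
  have k2 := key p r q hpr hpq hqr.symm hp hr hq
  have k3 := key q p r hpq.symm hqr hpr hq hp hr
  have k4 := key q r p hqr hpq.symm hpr.symm hq hr hp
  have k5 := key r p q hpr.symm hqr.symm hpq hr hp hq
  have k6 := key r q p hqr.symm hpr.symm hpq.symm hr hq hp
  rw [hc p, hc q, hc r]
  by_cases a1 : f p < x <;> by_cases a2 : f p < s <;> by_cases b1 : f q < x <;> by_cases b2 : f q < s <;>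
    by_cases c1 : f r < x <;> by_cases c2 : f r < s <;> simp only [a1, a2, b1, b2, c1, c2, if_true, if_false,
      true_or, or_true] <;> omega

theorem stack_grid (m k : ℕ) (hm : 12 * k ^ 3 + 2 < m) : ¬ HasStackLayout (grid m) k := by
  classical
  rintro ⟨f, col, hf, hcol⟩
  let F : ℕ → ℕ → ℕ → ℕ := fun i j l =>
    if h : i < m ∧ j < m ∧ l < m then f (⟨i, h.1⟩, ⟨j, h.2.1⟩, ⟨l, h.2.2⟩) else 0
  have hF : ∀ i j l (hi : i < m) (hj : j < m) (hl : l < m), F i j l = f (⟨i, hi⟩, ⟨j, hj⟩, ⟨l, hl⟩) := by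
    intro i j l hi hj hl
    exact dif_pos ⟨hi, hj, hl⟩
  refine contra m (3 * k ^ 3) F (by omega) ?_ ?_ (∑ v, f v + 1) ?_
  · intro t
    by_cases ht : ∃ v, f v = t
    · obtain ⟨v, hv⟩ := ht
      refine ⟨{(v.1 : ℕ)}, {(v.2.1 : ℕ)}, by simp, by simp, ?_⟩
      intro i j l hi hj hl e
      rw [hF i j l hi hj hl] at e
      have := hf (e.trans hv.symm)
      subst this
      simp
    · refine ⟨∅, ∅, by simp, by simp, ?_⟩
      intro i j l hi hj hl e
      rw [hF i j l hi hj hl] at e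
      exact absurd ⟨_, e⟩ ht
  · intro x s
    obtain ⟨H, hH, hhit⟩ := exists_hit hf hcol x s
    refine ⟨H.image (fun v => (v.1 : ℕ)), H.image (fun v => (v.2.1 : ℕ)), H.image (fun v => (v.2.2 : ℕ)),
      card_image_le.trans hH, card_image_le.trans hH, card_image_le.trans hH, ?_⟩
    intro hxs
    let c : Box m → Fin 3 := fun v => if f v < x then 1 else if f v < s then 2 else 0
    have hc : ∀ i j l (hi : i < m) (hj : j < m) (hl : l < m),
        colr F x s i j l = c (⟨i, hi⟩, ⟨j, hj⟩, ⟨l, hl⟩) := by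
      intro i j l hi hj hl
      simp only [colr, c, hF i j l hi hj hl]
    have tri : ∀ p q r : Box m, (grid m).Adj p q → (grid m).Adj p r → (grid m).Adj q r →
        p ∉ H → q ∉ H → r ∉ H → bal (c p) (c q) + bal (c q) (c r) = bal (c p) (c r) := by
      intro p q r h1 h2 h3 h4 h5 h6
      refine bal_tri _ _ _ ?_
      exact not_rainbow hxs hhit p q r h1 h2 h3 h4 h5 h6 c (fun v => rfl)
    have sq : ∀ p q q' r : Box m, (grid m).Adj p q → (grid m).Adj p r → (grid m).Adj q r →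
        (grid m).Adj p q' → (grid m).Adj q' r → p ∉ H → q ∉ H → q' ∉ H → r ∉ H →
        bal (c p) (c q) + bal (c q) (c r) = bal (c p) (c q') + bal (c q') (c r) := by
      intro p q q' r h1 h2 h3 h4 h5 h6 h7 h8 h9
      rw [tri p q r h1 h2 h3 h6 h7 h9, tri p q' r h4 h2 h5 h6 h8 h9]
    have nX : ∀ i, i ∉ H.image (fun v => (v.1 : ℕ)) → ∀ v : Box m, (v.1 : ℕ) = i → v ∉ H := by
      intro i hi v hv hvH
      exact hi (mem_image.2 ⟨v, hvH, hv⟩)
    have nY : ∀ i, i ∉ H.image (fun v => (v.2.1 : ℕ)) → ∀ v : Box m, (v.2.1 : ℕ) = i → v ∉ H := by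
      intro i hi v hv hvH
      exact hi (mem_image.2 ⟨v, hvH, hv⟩)
    have nZ : ∀ i, i ∉ H.image (fun v => (v.2.2 : ℕ)) → ∀ v : Box m, (v.2.2 : ℕ) = i → v ∉ H := by
      intro i hi v hv hvH
      exact hi (mem_image.2 ⟨v, hvH, hv⟩)
    refine ⟨?_, ?_, ?_⟩
    · intro i j l hi hj hl hh
      rw [hc i j l hi (by omega) (by omega), hc i (j + 1) l hi hj (by omega), hc i (j + 1) (l + 1) hi hj hl,
        hc i j (l + 1) hi (by omega) hl]
      refine sq _ _ _ _ (Or.inl ⟨0, 1, 0, ?_⟩) (Or.inl ⟨0, 1, 1, ?_⟩) (Or.inl ⟨0, 0, 1, ?_⟩)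
        (Or.inl ⟨0, 0, 1, ?_⟩) (Or.inl ⟨0, 1, 0, ?_⟩) (nX i hh _ rfl) (nX i hh _ rfl) (nX i hh _ rfl)
        (nX i hh _ rfl) <;> simp
    · intro i j l hi hj hl hh
      rw [hc i j l (by omega) hj (by omega), hc (i + 1) j l hi hj (by omega), hc (i + 1) j (l + 1) hi hj hl,
        hc i j (l + 1) (by omega) hj hl]
      refine sq _ _ _ _ (Or.inl ⟨1, 0, 0, ?_⟩) (Or.inl ⟨1, 0, 1, ?_⟩) (Or.inl ⟨0, 0, 1, ?_⟩)
        (Or.inl ⟨0, 0, 1, ?_⟩) (Or.inl ⟨1, 0, 0, ?_⟩) (nY j hh _ rfl) (nY j hh _ rfl) (nY j hh _ rfl)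
        (nY j hh _ rfl) <;> simp
    · intro i j l hi hj hl hh
      rw [hc i j l (by omega) (by omega) hl, hc (i + 1) j l hi (by omega) hl, hc (i + 1) (j + 1) l hi hj hl,
        hc i (j + 1) l (by omega) hj hl]
      refine sq _ _ _ _ (Or.inl ⟨1, 0, 0, ?_⟩) (Or.inl ⟨1, 1, 0, ?_⟩) (Or.inl ⟨0, 1, 0, ?_⟩)
        (Or.inl ⟨0, 1, 0, ?_⟩) (Or.inl ⟨1, 0, 0, ?_⟩) (nZ l hh _ rfl) (nZ l hh _ rfl) (nZ l hh _ rfl)
        (nZ l hh _ rfl) <;> simp
  · intro i j l hi hj hl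
    rw [hF i j l hi hj hl]
    exact Nat.lt_succ_of_le (Finset.single_le_sum (f := f) (fun _ _ => Nat.zero_le _) (mem_univ _))

end Pool.Agent.Helper19.QS
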