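import Mathlib

/-!
# Integer-valued lifts of 3-colourings of the grid without rainbow triangles
-/

set_option autoImplicit false

open Finset

namespace Pool.Agent.Helper19.QS

/-- the balanced difference of two colours -/
def bal (a b : Fin 3) : ℤ := if a = b then 0 else if b = a + 1 then 1 else -1

theorem bal_tri : ∀ a b c : Fin 3, (a = b ∨ b = c ∨ a = c) → bal a b + bal b c = bal a c := by
  decide

/-- `θ` lifts the colouring `c` of the grid `{0, …, m-1}³` on the planes `x = i`, `i ∉ A`, and `y = j`, `j ∉ B` -/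
structure Lift (m : ℕ) (c : ℕ → ℕ → ℕ → Fin 3) (A B : Finset ℕ) (θ : ℕ → ℕ → ℕ → ℤ) : Prop where
  Xy : ∀ i j k, i < m → j + 1 < m → k < m → i ∉ A → θ i (j + 1) k - θ i j k = bal (c i j k) (c i (j + 1) k)
  Xz : ∀ i j k, i < m → j < m → k + 1 < m → i ∉ A → θ i j (k + 1) - θ i j k = bal (c i j k) (c i j (k + 1))
  Yx : ∀ i j k, i + 1 < m → j < m → k < m → j ∉ B → θ (i + 1) j k - θ i j k = bal (c i j k) (c (i + 1) j k)
  Yz : ∀ i j k, i < m → j < m → k + 1 < m → j ∉ B → θ i j (k + 1) - θ i j k = bal (c i j k) (c i j (k + 1))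

/-- the balanced differences of `c` satisfy the square relations in the planes `x = i`, `i ∉ A`, `y = j`, `j ∉ B`,
and `z = k`, `k ∉ C` -/
structure Flat (m : ℕ) (c : ℕ → ℕ → ℕ → Fin 3) (A B C : Finset ℕ) : Prop where
  X : ∀ i j k, i < m → j + 1 < m → k + 1 < m → i ∉ A →
    bal (c i j k) (c i (j + 1) k) + bal (c i (j + 1) k) (c i (j + 1) (k + 1)) =
      bal (c i j k) (c i j (k + 1)) + bal (c i j (k + 1)) (c i (j + 1) (k + 1))
  Y : ∀ i j k, i + 1 < m → j < m → k + 1 < m → j ∉ B →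
    bal (c i j k) (c (i + 1) j k) + bal (c (i + 1) j k) (c (i + 1) j (k + 1)) =
      bal (c i j k) (c i j (k + 1)) + bal (c i j (k + 1)) (c (i + 1) j (k + 1))
  Z : ∀ i j k, i + 1 < m → j + 1 < m → k < m → k ∉ C →
    bal (c i j k) (c (i + 1) j k) + bal (c (i + 1) j k) (c (i + 1) (j + 1) k) =
      bal (c i j k) (c i (j + 1) k) + bal (c i (j + 1) k) (c (i + 1) (j + 1) k)

theorem potential (m : ℕ) (h v : ℕ → ℕ → ℤ)
    (hs : ∀ i j, i + 1 < m → j + 1 < m → h i j + v (i + 1) j = v i j + h i (j + 1)) :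
    ∃ φ : ℕ → ℕ → ℤ, (∀ i j, i + 1 < m → j < m → φ (i + 1) j - φ i j = h i j) ∧
      (∀ i j, i < m → j + 1 < m → φ i (j + 1) - φ i j = v i j) := by
  refine ⟨fun i j => ∑ i' ∈ range i, h i' 0 + ∑ j' ∈ range j, v i j', ?_, ?_⟩
  · intro i j hi
    induction j with
    | zero =>
      intro _
      simp only [sum_range_succ, range_zero, sum_empty]
      ring
    | succ j ih =>
      intro hj
      have h1 := ih (by omega)
      have h2 := hs i j hi hj
      simp only [sum_range_succ] at h1 ⊢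
      linarith
  · intro i j _ _
    simp only [sum_range_succ]
    ring

theorem potential' (m : ℕ) (h v : ℕ → ℕ → ℤ)
    (hs : ∀ i j, i + 1 < m → j + 1 < m → h i j + v (i + 1) j = v i j + h i (j + 1)) (p q : ℕ) (a : ℤ) :
    ∃ φ : ℕ → ℕ → ℤ, (∀ i j, i + 1 < m → j < m → φ (i + 1) j - φ i j = h i j) ∧
      (∀ i j, i < m → j + 1 < m → φ i (j + 1) - φ i j = v i j) ∧ φ p q = a := by
  obtain ⟨φ, h1, h2⟩ := potential m h v hs
  refine ⟨fun i j => φ i j + (a - φ p q), ?_, ?_, ?_⟩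
  · intro i j hi hj
    have := h1 i j hi hj
    simp only
    linarith
  · intro i j hi hj
    have := h2 i j hi hj
    simp only
    linarith
  · simp

theorem line (m : ℕ) (g g' : ℕ → ℤ) (h : ∀ t, t + 1 < m → g (t + 1) - g t = g' (t + 1) - g' t) (t₀ : ℕ)
    (h₀ : t₀ < m) (e : g t₀ = g' t₀) : ∀ t, t < m → g t = g' t := by
  have key : ∀ t, t < m → g t - g' t = g 0 - g' 0 := by
    intro t
    induction t with
    | zero => intro _; rfl
    | succ t ih =>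
      intro ht
      have h1 := ih (by omega)
      have h2 := h t ht
      linarith
  intro t ht
  have h1 := key t ht
  have h2 := key t₀ h₀
  linarith

/-- existence of lifts -/
theorem exists_lift (m : ℕ) (c : ℕ → ℕ → ℕ → Fin 3) (A B C : Finset ℕ) (hF : Flat m c A B C) (k₀ : ℕ)
    (hk₀ : k₀ < m) (hkC : k₀ ∉ C) : ∃ θ, Lift m c A B θ := by
  obtain ⟨P, hP1, hP2⟩ := potential m (fun i j => bal (c i j k₀) (c (i + 1) j k₀))
    (fun i j => bal (c i j k₀) (c i (j + 1) k₀)) (fun i j hi hj => hF.Z i j k₀ hi hj hk₀ hkC)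
  have hX : ∀ i, ∃ φ : ℕ → ℕ → ℤ, i < m → i ∉ A →
      (∀ j k, j + 1 < m → k < m → φ (j + 1) k - φ j k = bal (c i j k) (c i (j + 1) k)) ∧
      (∀ j k, j < m → k + 1 < m → φ j (k + 1) - φ j k = bal (c i j k) (c i j (k + 1))) ∧
      φ 0 k₀ = P i 0 := by
    intro i
    by_cases hi : i < m ∧ i ∉ A
    · obtain ⟨φ, h1, h2, h3⟩ := potential' m (fun j k => bal (c i j k) (c i (j + 1) k))
        (fun j k => bal (c i j k) (c i j (k + 1))) (fun j k hj hk => hF.X i j k hi.1 hj hk hi.2) 0 k₀ (P i 0)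
      exact ⟨φ, fun _ _ => ⟨h1, h2, h3⟩⟩
    · exact ⟨fun _ _ => 0, fun h1 h2 => absurd ⟨h1, h2⟩ hi⟩
  have hY : ∀ j, ∃ φ : ℕ → ℕ → ℤ, j < m → j ∉ B →
      (∀ i k, i + 1 < m → k < m → φ (i + 1) k - φ i k = bal (c i j k) (c (i + 1) j k)) ∧
      (∀ i k, i < m → k + 1 < m → φ i (k + 1) - φ i k = bal (c i j k) (c i j (k + 1))) ∧
      φ 0 k₀ = P 0 j := by
    intro j
    by_cases hj : j < m ∧ j ∉ B
    · obtain ⟨φ, h1, h2, h3⟩ := potential' m (fun i k => bal (c i j k) (c (i + 1) j k))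
        (fun i k => bal (c i j k) (c i j (k + 1))) (fun i k hi hk => hF.Y i j k hi hj.1 hk hj.2) 0 k₀ (P 0 j)
      exact ⟨φ, fun _ _ => ⟨h1, h2, h3⟩⟩
    · exact ⟨fun _ _ => 0, fun h1 h2 => absurd ⟨h1, h2⟩ hj⟩
  choose φX hφX using hX
  choose φY hφY using hY
  have c1 : ∀ i j, i < m → i ∉ A → j < m → φX i j k₀ = P i j := by
    intro i j hi hiA hj
    obtain ⟨h1, h2, h3⟩ := hφX i hi hiA
    exact line m (fun j => φX i j k₀) (fun j => P i j)
      (fun t ht => (h1 t k₀ ht hk₀).trans (hP2 i t hi ht).symm) 0 (by omega) h3 j hj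
  have c2 : ∀ i j, i < m → j ∉ B → j < m → φY j i k₀ = P i j := by
    intro i j hi hjB hj
    obtain ⟨h1, h2, h3⟩ := hφY j hj hjB
    exact line m (fun i => φY j i k₀) (fun i => P i j)
      (fun t ht => (h1 t k₀ ht hk₀).trans (hP1 t j ht hj).symm) 0 (by omega) h3 i hi
  have c3 : ∀ i j k, i < m → j < m → k < m → i ∉ A → j ∉ B → φX i j k = φY j i k := by
    intro i j k hi hj hk hiA hjB
    obtain ⟨h1, h2, h3⟩ := hφX i hi hiA
    obtain ⟨h4, h5, h6⟩ := hφY j hj hjB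
    exact line m (fun k => φX i j k) (fun k => φY j i k)
      (fun t ht => (h2 j t hj ht).trans (h5 i t hi ht).symm) k₀ hk₀
      ((c1 i j hi hiA hj).trans (c2 i j hi hjB hj).symm) k hk
  have c4 : ∀ i j k, i < m → j < m → k < m → j ∉ B →
      (if i ∉ A then φX i j k else φY j i k) = φY j i k := by
    intro i j k hi hj hk hjB
    by_cases h : i ∉ A
    · rw [if_pos h]
      exact c3 i j k hi hj hk h hjB
    · rw [if_neg h]
  refine ⟨fun i j k => if i ∉ A then φX i j k else φY j i k, ⟨?_, ?_, ?_, ?_⟩⟩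
  · intro i j k hi hj hk hiA
    simp only [if_pos hiA]
    exact (hφX i hi hiA).1 j k hj hk
  · intro i j k hi hj hk hiA
    simp only [if_pos hiA]
    exact (hφX i hi hiA).2.1 j k hj hk
  · intro i j k hi hj hk hjB
    rw [c4 i j k (by omega) hj hk hjB, c4 (i + 1) j k hi hj hk hjB]
    exact (hφY j hj hjB).1 i k hi hk
  · intro i j k hi hj hk hjB
    rw [c4 i j k hi hj (by omega) hjB, c4 i j (k + 1) hi hj hk hjB]
    exact (hφY j hj hjB).2.1 i k hi hk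

/-- `θ` and `θ'` agree on the planes `x = i`, `i ∉ A`, and `y = j`, `j ∉ B` -/
def Agree (m : ℕ) (A B : Finset ℕ) (θ θ' : ℕ → ℕ → ℕ → ℤ) : Prop :=
  ∀ i j k, i < m → j < m → k < m → (i ∉ A ∨ j ∉ B) → θ i j k = θ' i j k

/-- `c` and `c'` agree on the planes `x = i`, `i ∉ A`, and `y = j`, `j ∉ B` -/
def AgreeC (m : ℕ) (A B : Finset ℕ) (c c' : ℕ → ℕ → ℕ → Fin 3) : Prop :=
  ∀ i j k, i < m → j < m → k < m → (i ∉ A ∨ j ∉ B) → c i j k = c' i j k

theorem rigid {m : ℕ} {c c' : ℕ → ℕ → ℕ → Fin 3} {A B A' B' A'' B'' : Finset ℕ}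
    {θ θ' : ℕ → ℕ → ℕ → ℤ} (h : Lift m c A B θ) (h' : Lift m c' A' B' θ') (hA : A ⊆ A'') (hB : B ⊆ B'')
    (hA' : A' ⊆ A'') (hB' : B' ⊆ B'') (hc : AgreeC m A'' B'' c c') (i₁ j₁ k₁ : ℕ) (hi₁ : i₁ < m) (hj₁ : j₁ < m)
    (hk₁ : k₁ < m) (hiA : i₁ ∉ A'') (hjB : j₁ ∉ B'') (e : θ i₁ j₁ k₁ = θ' i₁ j₁ k₁) : Agree m A'' B'' θ θ' := by
  have pX : ∀ i j₀ k₀, i < m → j₀ < m → k₀ < m → i ∉ A'' → θ i j₀ k₀ = θ' i j₀ k₀ →
      ∀ j k, j < m → k < m → θ i j k = θ' i j k := by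
    intro i j₀ k₀ hi hj₀ hk₀ hi'' e0
    have s1 : ∀ j, j < m → θ i j k₀ = θ' i j k₀ :=
      line m (fun j => θ i j k₀) (fun j => θ' i j k₀) (fun t ht => by
        have e1 := h.Xy i t k₀ hi ht hk₀ (fun hh => hi'' (hA hh))
        have e2 := h'.Xy i t k₀ hi ht hk₀ (fun hh => hi'' (hA' hh))
        rw [hc i t k₀ hi (by omega) hk₀ (Or.inl hi''), hc i (t + 1) k₀ hi ht hk₀ (Or.inl hi'')] at e1
        exact e1.trans e2.symm) j₀ hj₀ e0
    intro j k hj hk
    exact line m (fun k => θ i j k) (fun k => θ' i j k) (fun t ht => by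
        have e1 := h.Xz i j t hi hj ht (fun hh => hi'' (hA hh))
        have e2 := h'.Xz i j t hi hj ht (fun hh => hi'' (hA' hh))
        rw [hc i j t hi hj (by omega) (Or.inl hi''), hc i j (t + 1) hi hj ht (Or.inl hi'')] at e1
        exact e1.trans e2.symm) k₀ hk₀ (s1 j hj) k hk
  have pY : ∀ j i₀ k₀, j < m → i₀ < m → k₀ < m → j ∉ B'' → θ i₀ j k₀ = θ' i₀ j k₀ →
      ∀ i k, i < m → k < m → θ i j k = θ' i j k := by
    intro j i₀ k₀ hj hi₀ hk₀ hj'' e0
    have s1 : ∀ i, i < m → θ i j k₀ = θ' i j k₀ :=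
      line m (fun i => θ i j k₀) (fun i => θ' i j k₀) (fun t ht => by
        have e1 := h.Yx t j k₀ ht hj hk₀ (fun hh => hj'' (hB hh))
        have e2 := h'.Yx t j k₀ ht hj hk₀ (fun hh => hj'' (hB' hh))
        rw [hc t j k₀ (by omega) hj hk₀ (Or.inr hj''), hc (t + 1) j k₀ ht hj hk₀ (Or.inr hj'')] at e1
        exact e1.trans e2.symm) i₀ hi₀ e0
    intro i k hi hk
    exact line m (fun k => θ i j k) (fun k => θ' i j k) (fun t ht => by
        have e1 := h.Yz i j t hi hj ht (fun hh => hj'' (hB hh))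
        have e2 := h'.Yz i j t hi hj ht (fun hh => hj'' (hB' hh))
        rw [hc i j t hi hj (by omega) (Or.inr hj''), hc i j (t + 1) hi hj ht (Or.inr hj'')] at e1
        exact e1.trans e2.symm) k₀ hk₀ (s1 i hi) k hk
  intro i j k hi hj hk hh
  rcases hh with hh | hh
  · exact pX i j₁ k₁ hi hj₁ hk₁ hh (pY j₁ i₁ k₁ hj₁ hi₁ hk₁ hjB e i k₁ hi hk₁) j k hj hk
  · exact pY j i₁ k₁ hj hi₁ hk₁ hh (pX i₁ j₁ k₁ hi₁ hj₁ hk₁ hiA e j k₁ hj hk₁) i k hi hk

end Pool.Agent.Helper19.QS
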