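import Pool.Agent.Helper19.QS.Defs

/-!
# Rainbow triangles in stack layouts
-/

set_option autoImplicit false

namespace Pool.Agent.Helper19.QS

variable {V : Type} {G : SimpleGraph V}

/-- a rainbow triangle for the thresholds `x ≤ s` -/
def Rain (G : SimpleGraph V) (f : V → ℕ) (x s : ℕ) (t : V × V × V) : Prop :=
  G.Adj t.1 t.2.1 ∧ G.Adj t.1 t.2.2 ∧ G.Adj t.2.1 t.2.2 ∧ f t.1 < x ∧ x ≤ f t.2.1 ∧ f t.2.1 < s ∧ s ≤ f t.2.2

/-- `n` disjoint rainbow triangles -/
def Many (G : SimpleGraph V) (f : V → ℕ) (x s n : ℕ) : Prop :=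
  ∃ g : Fin n → V × V × V, (∀ i, Rain G f x s (g i)) ∧
    ∀ i j, i ≠ j → (g i).1 ≠ (g j).1 ∧ (g i).2.1 ≠ (g j).2.1 ∧ (g i).2.2 ≠ (g j).2.2

theorem not_many {k : ℕ} {f : V → ℕ} {col : Sym2 V → Fin k} (hf : Function.Injective f)
    (hc : ∀ a b x y : V, G.Adj a b → G.Adj x y → f a < f x → f x < f b → f b < f y →
      col s(a, b) ≠ col s(x, y)) (x s : ℕ) : ¬ Many G f x s (k ^ 3 + 1) := by
  rintro ⟨g, hg, hd⟩
  let C : Fin (k ^ 3 + 1) → Fin k × Fin k × Fin k := fun i =>
    (col s((g i).1, (g i).2.1), col s((g i).1, (g i).2.2), col s((g i).2.1, (g i).2.2))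
  have hcard : Fintype.card (Fin k × Fin k × Fin k) < Fintype.card (Fin (k ^ 3 + 1)) := by
    simp only [Fintype.card_prod, Fintype.card_fin]
    have : k * (k * k) = k ^ 3 := by ring
    omega
  obtain ⟨i, j, hij, hC⟩ := Fintype.exists_ne_map_eq_of_card_lt C hcard
  simp only [C, Prod.mk.injEq] at hC
  obtain ⟨h12, h13, h23⟩ := hC
  have key : ∀ i j, i ≠ j → f (g i).1 < f (g j).1 →
      col s((g i).1, (g i).2.1) = col s((g j).1, (g j).2.1) →
      col s((g i).1, (g i).2.2) = col s((g j).1, (g j).2.2) →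
      col s((g i).2.1, (g i).2.2) = col s((g j).2.1, (g j).2.2) → False := by
    intro i j hij hlt h12 h13 h23
    obtain ⟨a1, a2, a3, a4, a5, a6, a7⟩ := hg i
    obtain ⟨b1, b2, b3, b4, b5, b6, b7⟩ := hg j
    obtain ⟨-, d2, d3⟩ := hd i j hij
    have n2 : f (g i).2.1 ≠ f (g j).2.1 := fun h => d2 (hf h)
    have n3 : f (g i).2.2 ≠ f (g j).2.2 := fun h => d3 (hf h)
    rcases lt_or_gt_of_ne n3 with h | h
    · exact hc _ _ _ _ a2 b2 hlt (by omega) h h13
    · rcases lt_or_gt_of_ne n2 with h' | h'
      · exact hc _ _ _ _ a1 b1 hlt (by omega) h' h12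
      · exact hc _ _ _ _ b3 a3 h' (by omega) h h23.symm
  have n1 : f (g i).1 ≠ f (g j).1 := fun h => (hd i j hij).1 (hf h)
  rcases lt_or_gt_of_ne n1 with h | h
  · exact key i j hij h h12 h13 h23
  · exact key j i hij.symm h h12.symm h13.symm h23.symm

/-- either few vertices meet all rainbow triangles, or there are many disjoint rainbow triangles -/
theorem hit_or_many [Fintype V] [DecidableEq V] (f : V → ℕ) (x s : ℕ) (n : ℕ) :
    (∃ H : Finset V, H.card ≤ 3 * n ∧ ∀ t, Rain G f x s t → t.1 ∈ H ∨ t.2.1 ∈ H ∨ t.2.2 ∈ H) ∨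
      Many G f x s (n + 1) := by
  induction n with
  | zero =>
    by_cases h : ∃ t, Rain G f x s t
    · obtain ⟨t, ht⟩ := h
      right
      refine ⟨fun _ => t, fun _ => ht, fun i j hij => ?_⟩
      exact absurd (Subsingleton.elim (α := Fin 1) i j) hij
    · left
      exact ⟨∅, by simp, fun t ht => absurd ⟨t, ht⟩ h⟩
  | succ n ih =>
    rcases ih with ⟨H, hH, hh⟩ | ⟨g, hg, hd⟩
    · left
      exact ⟨H, by omega, hh⟩
    · let H : Finset V := Finset.univ.image (fun i => (g i).1) ∪
        (Finset.univ.image (fun i => (g i).2.1) ∪ Finset.univ.image (fun i => (g i).2.2))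
      by_cases h : ∀ t, Rain G f x s t → t.1 ∈ H ∨ t.2.1 ∈ H ∨ t.2.2 ∈ H
      · left
        refine ⟨H, ?_, h⟩
        have c1 : (Finset.univ.image (fun i => (g i).1)).card ≤ n + 1 :=
          Finset.card_image_le.trans (by simp)
        have c2 : (Finset.univ.image (fun i => (g i).2.1)).card ≤ n + 1 :=
          Finset.card_image_le.trans (by simp)
        have c3 : (Finset.univ.image (fun i => (g i).2.2)).card ≤ n + 1 :=
          Finset.card_image_le.trans (by simp)
        have c4 := Finset.card_union_le (Finset.univ.image (fun i => (g i).2.1))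
          (Finset.univ.image (fun i => (g i).2.2))
        have c5 := Finset.card_union_le (Finset.univ.image (fun i => (g i).1))
          (Finset.univ.image (fun i => (g i).2.1) ∪ Finset.univ.image (fun i => (g i).2.2))
        simp only [H]
        omega
      · right
        push Not at h
        obtain ⟨t, ht, h1, h2, h3⟩ := h
        simp only [H, Finset.mem_union, Finset.mem_image, Finset.mem_univ, true_and, not_or,
          not_exists] at h1 h2 h3
        have sep1 : ∀ i, (g i).1 ≠ t.1 := h1.1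
        have sep2 : ∀ i, (g i).2.1 ≠ t.2.1 := h2.2.1
        have sep3 : ∀ i, (g i).2.2 ≠ t.2.2 := h3.2.2
        refine ⟨Fin.snoc (α := fun _ => V × V × V) g t, ?_, ?_⟩
        · intro i
          refine Fin.lastCases ?_ (fun i => ?_) i
          · rw [Fin.snoc_last]
            exact ht
          · rw [Fin.snoc_castSucc]
            exact hg i
        · intro i j
          refine Fin.lastCases ?_ (fun i => ?_) i
          · refine Fin.lastCases ?_ (fun j => ?_) j
            · intro h
              exact absurd rfl h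
            · intro _
              rw [Fin.snoc_last, Fin.snoc_castSucc]
              exact ⟨(sep1 j).symm, (sep2 j).symm, (sep3 j).symm⟩
          · refine Fin.lastCases ?_ (fun j => ?_) j
            · intro _
              rw [Fin.snoc_last, Fin.snoc_castSucc]
              exact ⟨sep1 i, sep2 i, sep3 i⟩
            · intro h
              rw [Fin.snoc_castSucc, Fin.snoc_castSucc]
              exact hd i j (fun e => h (by rw [e]))

/-- in a graph with a `k`-stack layout at most `3k³` vertices meet all rainbow triangles -/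
theorem exists_hit [Fintype V] [DecidableEq V] {k : ℕ} {f : V → ℕ} {col : Sym2 V → Fin k}
    (hf : Function.Injective f)
    (hc : ∀ a b x y : V, G.Adj a b → G.Adj x y → f a < f x → f x < f b → f b < f y →
      col s(a, b) ≠ col s(x, y)) (x s : ℕ) :
    ∃ H : Finset V, H.card ≤ 3 * k ^ 3 ∧ ∀ t, Rain G f x s t → t.1 ∈ H ∨ t.2.1 ∈ H ∨ t.2.2 ∈ H :=
  (hit_or_many f x s (k ^ 3)).resolve_right (not_many hf hc x s)

end Pool.Agent.Helper19.QS
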