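import Pool.Agent.Helper19.QS.Lift
import Pool.Agent.Helper19.QS.Stack

/-!
# The triangulated grid has unbounded stack-number
-/

set_option autoImplicit false

open Finset

namespace Pool.Agent.Helper19.QS

/-- the colouring of the grid by the thresholds `x ≤ s` -/
def colr (F : ℕ → ℕ → ℕ → ℕ) (x s : ℕ) (i j k : ℕ) : Fin 3 :=
  if F i j k < x then 1 else if F i j k < s then 2 else 0

theorem exists_good {m : ℕ} {S : Finset ℕ} (h : S.card < m) : ∃ i, i < m ∧ i ∉ S := by
  obtain ⟨i, hi, hS⟩ := Finset.exists_mem_notMem_of_card_lt_card (s := S) (t := range m) (by simpa using h)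
  exact ⟨i, mem_range.1 hi, hS⟩

/-- the combinatorial heart: there is no order of the grid all of whose two-threshold colourings have few
planes with rainbow triangles -/
theorem contra (m h : ℕ) (F : ℕ → ℕ → ℕ → ℕ) (hm : 4 * h + 2 < m)
    (hW : ∀ t, ∃ A B : Finset ℕ, A.card ≤ 1 ∧ B.card ≤ 1 ∧
      ∀ i j k, i < m → j < m → k < m → F i j k = t → i ∈ A ∧ j ∈ B)
    (hFl : ∀ x s, ∃ A B C : Finset ℕ, A.card ≤ h ∧ B.card ≤ h ∧ C.card ≤ h ∧
      (x ≤ s → Flat m (colr F x s) A B C))
    (N : ℕ) (hN : ∀ i j k, i < m → j < m → k < m → F i j k < N) : False := by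
  choose WA WB hWA hWB hW using hW
  choose A B C hA hB hC hFl using hFl
  have hm0 : 0 < m := by omega
  -- colours change only at one vertex
  have chx : ∀ x s, x < s → ∀ A' B' : Finset ℕ, WA x ⊆ A' → WB x ⊆ B' →
      AgreeC m A' B' (colr F x s) (colr F (x + 1) s) := by
    intro x s hxs A' B' h1 h2 i j k hi hj hk hh
    have hne : F i j k ≠ x := by
      intro e
      obtain ⟨e1, e2⟩ := hW x i j k hi hj hk e
      rcases hh with hh | hh
      · exact hh (h1 e1)
      · exact hh (h2 e2)
    unfold colr
    by_cases hlt : F i j k < x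
    · rw [if_pos hlt, if_pos (by omega)]
    · rw [if_neg hlt, if_neg (by omega : ¬ F i j k < x + 1)]
  have chs : ∀ x s, x ≤ s → ∀ A' B' : Finset ℕ, WA s ⊆ A' → WB s ⊆ B' →
      AgreeC m A' B' (colr F x s) (colr F x (s + 1)) := by
    intro x s hxs A' B' h1 h2 i j k hi hj hk hh
    have hne : F i j k ≠ s := by
      intro e
      obtain ⟨e1, e2⟩ := hW s i j k hi hj hk e
      rcases hh with hh | hh
      · exact hh (h1 e1)
      · exact hh (h2 e2)
    unfold colr
    by_cases hlt : F i j k < x
    · rw [if_pos hlt, if_pos hlt]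
    · rw [if_neg hlt, if_neg hlt]
      by_cases hls : F i j k < s
      · rw [if_pos hls, if_pos (by omega)]
      · rw [if_neg hls, if_neg (by omega)]
  -- lifts exist
  have hex : ∀ x s, x ≤ s → ∃ θ, Lift m (colr F x s) (A x s) (B x s) θ := by
    intro x s hxs
    obtain ⟨k₀, hk₀, hkC⟩ := exists_good (m := m) (S := C x s) (by have := hC x s; omega)
    exact exists_lift m _ _ _ _ (hFl x s hxs) k₀ hk₀ hkC
  -- one step in the direction of `x`
  have hstep : ∀ s x θ, ∃ θ', x < s → Lift m (colr F x s) (A x s) (B x s) θ →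
      Lift m (colr F (x + 1) s) (A (x + 1) s) (B (x + 1) s) θ' ∧
      Agree m (A x s ∪ (A (x + 1) s ∪ WA x)) (B x s ∪ (B (x + 1) s ∪ WB x)) θ θ' := by
    intro s x θ
    by_cases hh : x < s ∧ Lift m (colr F x s) (A x s) (B x s) θ
    · obtain ⟨hxs, hθ⟩ := hh
      obtain ⟨T, hT⟩ := hex (x + 1) s hxs
      obtain ⟨i₁, hi₁, hiA⟩ := exists_good (m := m) (S := A x s ∪ (A (x + 1) s ∪ WA x)) (by
        have h1 := card_union_le (A x s) (A (x + 1) s ∪ WA x)
        have h2 := card_union_le (A (x + 1) s) (WA x)
        have h3 := hA x s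
        have h4 := hA (x + 1) s
        have h5 := hWA x
        omega)
      obtain ⟨j₁, hj₁, hjB⟩ := exists_good (m := m) (S := B x s ∪ (B (x + 1) s ∪ WB x)) (by
        have h1 := card_union_le (B x s) (B (x + 1) s ∪ WB x)
        have h2 := card_union_le (B (x + 1) s) (WB x)
        have h3 := hB x s
        have h4 := hB (x + 1) s
        have h5 := hWB x
        omega)
      let θ' : ℕ → ℕ → ℕ → ℤ := fun i j k => T i j k + (θ i₁ j₁ 0 - T i₁ j₁ 0)
      have hT' : Lift m (colr F (x + 1) s) (A (x + 1) s) (B (x + 1) s) θ' := by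
        refine ⟨?_, ?_, ?_, ?_⟩
        · intro i j k hi hj hk hh
          have := hT.Xy i j k hi hj hk hh
          simp only [θ']
          linarith
        · intro i j k hi hj hk hh
          have := hT.Xz i j k hi hj hk hh
          simp only [θ']
          linarith
        · intro i j k hi hj hk hh
          have := hT.Yx i j k hi hj hk hh
          simp only [θ']
          linarith
        · intro i j k hi hj hk hh
          have := hT.Yz i j k hi hj hk hh
          simp only [θ']
          linarith
      refine ⟨θ', fun _ _ => ⟨hT', ?_⟩⟩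
      refine rigid hθ hT' subset_union_left subset_union_left
        (subset_union_left.trans subset_union_right) (subset_union_left.trans subset_union_right)
        (chx x s hxs _ _ (subset_union_right.trans subset_union_right)
          (subset_union_right.trans subset_union_right)) i₁ j₁ 0 hi₁ hj₁ hm0 hiA hjB ?_
      simp [θ']
    · exact ⟨θ, fun h1 h2 => absurd ⟨h1, h2⟩ hh⟩
  choose nxt hnxt using hstep
  -- the transported lifts
  let ini : ℕ → ℕ → ℕ → ℕ → ℤ := fun s i j k => if F i j k < s then 2 else 3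
  let Θ : ℕ → ℕ → ℕ → ℕ → ℕ → ℤ := fun s x => Nat.rec (ini s) (fun x θ => nxt s x θ) x
  have hΘ0 : ∀ s, Θ s 0 = ini s := fun s => rfl
  have hΘs : ∀ s x, Θ s (x + 1) = nxt s x (Θ s x) := fun s x => rfl
  have hini : ∀ s (A' B' : Finset ℕ), Lift m (colr F 0 s) A' B' (ini s) := by
    intro s A' B'
    have key : ∀ i j k i' j' k', ini s i' j' k' - ini s i j k =
        bal (colr F 0 s i j k) (colr F 0 s i' j' k') := by
      intro i j k i' j' k'
      simp only [ini, colr, Nat.not_lt_zero, if_false]
      by_cases h1 : F i j k < s <;> by_cases h2 : F i' j' k' < s <;> simp [h1, h2, bal]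
    exact ⟨fun _ _ _ _ _ _ _ => key _ _ _ _ _ _, fun _ _ _ _ _ _ _ => key _ _ _ _ _ _,
      fun _ _ _ _ _ _ _ => key _ _ _ _ _ _, fun _ _ _ _ _ _ _ => key _ _ _ _ _ _⟩
  have hlift : ∀ s x, x ≤ s → Lift m (colr F x s) (A x s) (B x s) (Θ s x) := by
    intro s x
    induction x with
    | zero =>
      intro _
      rw [hΘ0]
      exact hini s _ _
    | succ x ih =>
      intro hx
      rw [hΘs]
      exact (hnxt s x (Θ s x) hx (ih (by omega))).1
  have hagr : ∀ s x, x < s →
      Agree m (A x s ∪ (A (x + 1) s ∪ WA x)) (B x s ∪ (B (x + 1) s ∪ WB x)) (Θ s x) (Θ s (x + 1)) := by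
    intro s x hx
    rw [hΘs]
    exact (hnxt s x (Θ s x) hx (hlift s x hx.le)).2
  -- comparison of `s` and `s + 1`
  have hcmp : ∀ s x, x ≤ s →
      Agree m (A x s ∪ (A x (s + 1) ∪ WA s)) (B x s ∪ (B x (s + 1) ∪ WB s)) (Θ s x) (Θ (s + 1) x) := by
    intro s x
    induction x with
    | zero =>
      intro _ i j k hi hj hk hh
      rw [hΘ0, hΘ0]
      have hne : F i j k ≠ s := by
        intro e
        obtain ⟨e1, e2⟩ := hW s i j k hi hj hk e
        rcases hh with hh | hh
        · exact hh (mem_union_right _ (mem_union_right _ e1))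
        · exact hh (mem_union_right _ (mem_union_right _ e2))
      simp only [ini]
      by_cases hlt : F i j k < s
      · rw [if_pos hlt, if_pos (by omega)]
      · rw [if_neg hlt, if_neg (by omega)]
    | succ x ih =>
      intro hx
      have hi := ih (by omega)
      obtain ⟨i₁, hi₁, hiA⟩ := exists_good (m := m)
        (S := (A x s ∪ (A x (s + 1) ∪ WA s)) ∪ (A (x + 1) s ∪ (A (x + 1) (s + 1) ∪ WA x))) (by
        have h1 := card_union_le (A x s) (A x (s + 1) ∪ WA s)
        have h2 := card_union_le (A x (s + 1)) (WA s)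
        have h1' := card_union_le (A (x + 1) s) (A (x + 1) (s + 1) ∪ WA x)
        have h2' := card_union_le (A (x + 1) (s + 1)) (WA x)
        have h3 := card_union_le (A x s ∪ (A x (s + 1) ∪ WA s)) (A (x + 1) s ∪ (A (x + 1) (s + 1) ∪ WA x))
        have h4 := hA x s
        have h5 := hA x (s + 1)
        have h6 := hA (x + 1) s
        have h7 := hA (x + 1) (s + 1)
        have h8 := hWA x
        have h9 := hWA s
        omega)
      obtain ⟨j₁, hj₁, hjB⟩ := exists_good (m := m)
        (S := (B x s ∪ (B x (s + 1) ∪ WB s)) ∪ (B (x + 1) s ∪ (B (x + 1) (s + 1) ∪ WB x))) (by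
        have h1 := card_union_le (B x s) (B x (s + 1) ∪ WB s)
        have h2 := card_union_le (B x (s + 1)) (WB s)
        have h1' := card_union_le (B (x + 1) s) (B (x + 1) (s + 1) ∪ WB x)
        have h2' := card_union_le (B (x + 1) (s + 1)) (WB x)
        have h3 := card_union_le (B x s ∪ (B x (s + 1) ∪ WB s)) (B (x + 1) s ∪ (B (x + 1) (s + 1) ∪ WB x))
        have h4 := hB x s
        have h5 := hB x (s + 1)
        have h6 := hB (x + 1) s
        have h7 := hB (x + 1) (s + 1)
        have h8 := hWB x
        have h9 := hWB s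
        omega)
      simp only [mem_union, not_or] at hiA hjB
      refine rigid (hlift s (x + 1) hx) (hlift (s + 1) (x + 1) (by omega)) subset_union_left subset_union_left
        (subset_union_left.trans subset_union_right) (subset_union_left.trans subset_union_right)
        (chs (x + 1) s hx _ _ (subset_union_right.trans subset_union_right)
          (subset_union_right.trans subset_union_right)) i₁ j₁ 0 hi₁ hj₁ hm0 ?_ ?_ ?_
      · simp only [mem_union, not_or]
        tauto
      · simp only [mem_union, not_or]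
        tauto
      · have e1 := hagr s x (by omega) i₁ j₁ 0 hi₁ hj₁ hm0 (Or.inl (by simp only [mem_union, not_or]; tauto))
        have e2 := hagr (s + 1) x (by omega) i₁ j₁ 0 hi₁ hj₁ hm0 (Or.inl (by simp only [mem_union, not_or]; tauto))
        have e3 := hi i₁ j₁ 0 hi₁ hj₁ hm0 (Or.inl (by simp only [mem_union, not_or]; tauto))
        rw [← e1, ← e2, e3]
  -- the end of the paths
  let can : ℕ → ℕ → ℕ → ℕ → ℤ := fun s i j k => if F i j k < s then 4 else 3
  have hcan : ∀ s (A' B' : Finset ℕ), Lift m (colr F s s) A' B' (can s) := by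
    intro s A' B'
    have key : ∀ i j k i' j' k', can s i' j' k' - can s i j k =
        bal (colr F s s i j k) (colr F s s i' j' k') := by
      intro i j k i' j' k'
      simp only [can, colr]
      by_cases h1 : F i j k < s <;> by_cases h2 : F i' j' k' < s <;> simp [h1, h2, bal]
    exact ⟨fun _ _ _ _ _ _ _ => key _ _ _ _ _ _, fun _ _ _ _ _ _ _ => key _ _ _ _ _ _,
      fun _ _ _ _ _ _ _ => key _ _ _ _ _ _, fun _ _ _ _ _ _ _ => key _ _ _ _ _ _⟩
  have hK : ∀ s, Agree m (A s s) (B s s) (Θ s s) (can s) := by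
    intro s
    induction s with
    | zero =>
      intro i j k _ _ _ _
      rw [hΘ0]
      simp [ini, can]
    | succ s ih =>
      obtain ⟨i₁, hi₁, hiA⟩ := exists_good (m := m)
        (S := (A s s ∪ (A s (s + 1) ∪ WA s)) ∪ A (s + 1) (s + 1)) (by
        have h1 := card_union_le (A s s) (A s (s + 1) ∪ WA s)
        have h2 := card_union_le (A s (s + 1)) (WA s)
        have h3 := card_union_le (A s s ∪ (A s (s + 1) ∪ WA s)) (A (s + 1) (s + 1))
        have h4 := hA s s
        have h5 := hA s (s + 1)
        have h7 := hA (s + 1) (s + 1)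
        have h9 := hWA s
        omega)
      obtain ⟨j₁, hj₁, hjB⟩ := exists_good (m := m)
        (S := (B s s ∪ (B s (s + 1) ∪ WB s)) ∪ B (s + 1) (s + 1)) (by
        have h1 := card_union_le (B s s) (B s (s + 1) ∪ WB s)
        have h2 := card_union_le (B s (s + 1)) (WB s)
        have h3 := card_union_le (B s s ∪ (B s (s + 1) ∪ WB s)) (B (s + 1) (s + 1))
        have h4 := hB s s
        have h5 := hB s (s + 1)
        have h7 := hB (s + 1) (s + 1)
        have h9 := hWB s
        omega)
      simp only [mem_union, not_or] at hiA hjB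
      refine rigid (hlift (s + 1) (s + 1) le_rfl) (hcan (s + 1) (A (s + 1) (s + 1)) (B (s + 1) (s + 1)))
        (Finset.Subset.refl _) (Finset.Subset.refl _) (Finset.Subset.refl _) (Finset.Subset.refl _)
        (fun _ _ _ _ _ _ _ => rfl) i₁ j₁ 0 hi₁ hj₁ hm0 hiA.2 hjB.2 ?_
      have e1 := hagr (s + 1) s (by omega) i₁ j₁ 0 hi₁ hj₁ hm0 (Or.inl (by simp only [mem_union, not_or]; tauto))
      have e2 := hcmp s s le_rfl i₁ j₁ 0 hi₁ hj₁ hm0 (Or.inl (by simp only [mem_union, not_or]; tauto))
      have e3 := ih i₁ j₁ 0 hi₁ hj₁ hm0 (Or.inl (by tauto))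
      rw [← e1, ← e2, e3]
      have hne : F i₁ j₁ 0 ≠ s := by
        intro e
        obtain ⟨e1, e2⟩ := hW s i₁ j₁ 0 hi₁ hj₁ hm0 e
        tauto
      simp only [can]
      by_cases hlt : F i₁ j₁ 0 < s
      · rw [if_pos hlt, if_pos (by omega)]
      · rw [if_neg hlt, if_neg (by omega)]
  -- the top row
  let top : ℕ → ℕ → ℕ → ℕ → ℤ := fun x i j k => if F i j k < x then 1 else 2
  have htop : ∀ x, x ≤ N → Agree m (A x N) (B x N) (Θ N x) (top x) := by
    intro x
    induction x with
    | zero =>
      intro _ i j k hi hj hk _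
      rw [hΘ0]
      simp [ini, top, hN i j k hi hj hk]
    | succ x ih =>
      intro hx
      have hi := ih (by omega)
      have htl : Lift m (colr F (x + 1) N) (A (x + 1) N) (B (x + 1) N) (top (x + 1)) := by
        have key : ∀ i j k i' j' k', i < m → j < m → k < m → i' < m → j' < m → k' < m →
            top (x + 1) i' j' k' - top (x + 1) i j k =
            bal (colr F (x + 1) N i j k) (colr F (x + 1) N i' j' k') := by
          intro i j k i' j' k' hi hj hk hi' hj' hk'
          have g1 := hN i j k hi hj hk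
          have g2 := hN i' j' k' hi' hj' hk'
          simp only [top, colr, g1, g2, if_true]
          by_cases h1 : F i j k < x + 1 <;> by_cases h2 : F i' j' k' < x + 1 <;> simp [h1, h2, bal]
        exact ⟨fun _ _ _ h1 h2 h3 _ => key _ _ _ _ _ _ (by omega) (by omega) (by omega) (by omega) (by omega)
            (by omega),
          fun _ _ _ h1 h2 h3 _ => key _ _ _ _ _ _ (by omega) (by omega) (by omega) (by omega) (by omega)
            (by omega),
          fun _ _ _ h1 h2 h3 _ => key _ _ _ _ _ _ (by omega) (by omega) (by omega) (by omega) (by omega)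
            (by omega),
          fun _ _ _ h1 h2 h3 _ => key _ _ _ _ _ _ (by omega) (by omega) (by omega) (by omega) (by omega)
            (by omega)⟩
      obtain ⟨i₁, hi₁, hiA⟩ := exists_good (m := m) (S := A x N ∪ (A (x + 1) N ∪ WA x)) (by
        have h1 := card_union_le (A x N) (A (x + 1) N ∪ WA x)
        have h2 := card_union_le (A (x + 1) N) (WA x)
        have h3 := hA x N
        have h4 := hA (x + 1) N
        have h5 := hWA x
        omega)
      obtain ⟨j₁, hj₁, hjB⟩ := exists_good (m := m) (S := B x N ∪ (B (x + 1) N ∪ WB x)) (by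
        have h1 := card_union_le (B x N) (B (x + 1) N ∪ WB x)
        have h2 := card_union_le (B (x + 1) N) (WB x)
        have h3 := hB x N
        have h4 := hB (x + 1) N
        have h5 := hWB x
        omega)
      simp only [mem_union, not_or] at hiA hjB
      refine rigid (hlift N (x + 1) hx) htl
        (Finset.Subset.refl _) (Finset.Subset.refl _) (Finset.Subset.refl _) (Finset.Subset.refl _)
        (fun _ _ _ _ _ _ _ => rfl) i₁ j₁ 0 hi₁ hj₁ hm0 hiA.2.1 hjB.2.1 ?_
      have e1 := hagr N x (by omega) i₁ j₁ 0 hi₁ hj₁ hm0 (Or.inl (by simp only [mem_union, not_or]; tauto))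
      have e2 := hi i₁ j₁ 0 hi₁ hj₁ hm0 (Or.inl (by tauto))
      rw [← e1, e2]
      have hne : F i₁ j₁ 0 ≠ x := by
        intro e
        obtain ⟨e1, e2⟩ := hW x i₁ j₁ 0 hi₁ hj₁ hm0 e
        tauto
      simp only [top]
      by_cases hlt : F i₁ j₁ 0 < x
      · rw [if_pos hlt, if_pos (by omega)]
      · rw [if_neg hlt, if_neg (by omega)]
  -- the contradiction
  obtain ⟨i₁, hi₁, hiA⟩ := exists_good (m := m) (S := A N N) (by have := hA N N; omega)
  have e1 := htop N le_rfl i₁ 0 0 hi₁ hm0 hm0 (Or.inl hiA)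
  have e2 := hK N i₁ 0 0 hi₁ hm0 hm0 (Or.inl hiA)
  rw [e1] at e2
  have g := hN i₁ 0 0 hi₁ hm0 hm0
  simp [top, can, g] at e2

end Pool.Agent.Helper19.QS
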